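import Pool.Agent.Helper20.Mono.GoalsH

/-!
# H5: zeros and poles of a product of cyclotomic type
-/

namespace Mono

open Finset Polynomial

lemma rootMultiplicity_one_sub_X_pow {N m : ℕ} {ω : ℂ} (hN : N ≠ 0) (hω : IsPrimitiveRoot ω m) :
    rootMultiplicity ω (1 - X ^ N : ℂ[X]) = if m ∣ N then 1 else 0 := by
  have hne : (1 - X ^ N : ℂ[X]) ≠ 0 := by
    intro h
    have h2 : (X ^ N - 1 : ℂ[X]) = 0 := by rw [← neg_sub, h, neg_zero]
    exact (X_pow_sub_C_ne_zero (Nat.pos_of_ne_zero hN) (1 : ℂ)) (by simpa using h2)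
  split_ifs with h
  · apply le_antisymm
    · apply rootMultiplicity_le_one_of_separable
      have hs : (X ^ N - 1 : ℂ[X]).Separable := by
        rw [X_pow_sub_one_separable_iff]
        exact_mod_cast hN
      have h2 : (1 - X ^ N : ℂ[X]) ∣ X ^ N - 1 := ⟨-1, by ring⟩
      exact hs.of_dvd h2
    · rw [Nat.one_le_iff_ne_zero, ← Nat.pos_iff_ne_zero, rootMultiplicity_pos hne]
      obtain ⟨k, rfl⟩ := h
      simp [IsRoot.def, pow_mul, hω.pow_eq_one]
  · apply rootMultiplicity_eq_zero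
    intro hr
    apply h
    rw [IsRoot.def] at hr
    simp only [eval_sub, eval_one, eval_pow, eval_X] at hr
    exact (hω.pow_eq_one_iff_dvd N).1 (sub_eq_zero.1 hr).symm

lemma one_sub_X_pow_ne_zero {N : ℕ} (hN : N ≠ 0) : (1 - X ^ N : ℂ[X]) ≠ 0 := by
  intro h
  have h2 : (X ^ N - 1 : ℂ[X]) = 0 := by rw [← neg_sub, h, neg_zero]
  exact (X_pow_sub_C_ne_zero (Nat.pos_of_ne_zero hN) (1 : ℂ)) (by simpa using h2)

lemma rootMultiplicity_pow' {p : ℂ[X]} (hp : p ≠ 0) (x : ℂ) (k : ℕ) :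
    rootMultiplicity x (p ^ k) = k * rootMultiplicity x p := by
  induction k with
  | zero => simp
  | succ k ih =>
    rw [pow_succ, rootMultiplicity_mul (mul_ne_zero (pow_ne_zero _ hp) hp), ih]
    ring

lemma rootMultiplicity_prod' {ι : Type*} (s : Finset ι) (f : ι → ℂ[X]) (hf : ∀ i ∈ s, f i ≠ 0)
    (x : ℂ) : rootMultiplicity x (∏ i ∈ s, f i) = ∑ i ∈ s, rootMultiplicity x (f i) := by
  classical
  induction s using Finset.induction_on with
  | empty => simp
  | insert a s ha ih =>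
    rw [Finset.prod_insert ha, Finset.sum_insert ha, rootMultiplicity_mul, ih]
    · intro i hi; exact hf i (Finset.mem_insert_of_mem hi)
    · refine mul_ne_zero (hf a (Finset.mem_insert_self _ _)) ?_
      rw [Finset.prod_ne_zero_iff]
      intro i hi; exact hf i (Finset.mem_insert_of_mem hi)

theorem cycloLemma : CycloLemma := by
  intro ι s N e m ω hN hω hm hsum
  set f : RatFunc ℂ := ∏ i ∈ s, (1 - RatFunc.X ^ N i : RatFunc ℂ) ^ e i with hf
  by_contra hcon
  push Not at hcon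
  obtain ⟨hnum, hden⟩ := hcon
  set P : ℂ[X] := ∏ i ∈ s, (1 - X ^ N i) ^ (e i).toNat with hP
  set Q : ℂ[X] := ∏ i ∈ s, (1 - X ^ N i) ^ (-e i).toNat with hQ
  have hP0 : P ≠ 0 := by
    rw [hP, Finset.prod_ne_zero_iff]
    intro i hi; exact pow_ne_zero _ (one_sub_X_pow_ne_zero (hN i hi))
  have hQ0 : Q ≠ 0 := by
    rw [hQ, Finset.prod_ne_zero_iff]
    intro i hi; exact pow_ne_zero _ (one_sub_X_pow_ne_zero (hN i hi))
  have halg : ∀ i, algebraMap ℂ[X] (RatFunc ℂ) (1 - X ^ N i) = 1 - RatFunc.X ^ N i := by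
    intro i
    simp [RatFunc.algebraMap_X]
  have hfPQ : f * algebraMap ℂ[X] (RatFunc ℂ) Q = algebraMap ℂ[X] (RatFunc ℂ) P := by
    rw [hf, hP, hQ, map_prod, map_prod, ← Finset.prod_mul_distrib]
    apply Finset.prod_congr rfl
    intro i hi
    rw [map_pow, map_pow, halg]
    have h0 : (1 - RatFunc.X ^ N i : RatFunc ℂ) ≠ 0 := by
      rw [← halg]
      intro h
      exact one_sub_X_pow_ne_zero (hN i hi)
        ((map_eq_zero_iff _ (IsFractionRing.injective ℂ[X] (RatFunc ℂ))).1 h)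
    generalize (1 - RatFunc.X ^ N i : RatFunc ℂ) = z at h0
    rw [← zpow_natCast z, ← zpow_natCast z, ← zpow_add₀ h0]
    congr 1
    omega
  have hQ0' : algebraMap ℂ[X] (RatFunc ℂ) Q ≠ 0 := by
    intro h
    exact hQ0 ((map_eq_zero_iff _ (IsFractionRing.injective ℂ[X] (RatFunc ℂ))).1 h)
  have hkey : f.num * Q = P * f.denom := by
    rw [RatFunc.num_mul_eq_mul_denom_iff hQ0]
    rw [eq_div_iff hQ0', hfPQ]
  have hn0 : f.num ≠ 0 := by
    intro h; rw [h] at hnum; simp at hnum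
  have hd0 : f.denom ≠ 0 := f.denom_ne_zero
  have h1 := congrArg (rootMultiplicity ω) hkey
  rw [rootMultiplicity_mul (mul_ne_zero hn0 hQ0), rootMultiplicity_mul (mul_ne_zero hP0 hd0),
    rootMultiplicity_eq_zero (p := f.num) (by rwa [IsRoot.def]),
    rootMultiplicity_eq_zero (p := f.denom) (by rwa [IsRoot.def]), zero_add, add_zero,
    hP, hQ, rootMultiplicity_prod' _ _ (fun i hi => pow_ne_zero _ (one_sub_X_pow_ne_zero (hN i hi))),
    rootMultiplicity_prod' _ _ (fun i hi => pow_ne_zero _ (one_sub_X_pow_ne_zero (hN i hi)))] at h1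
  apply hsum
  have h2 : ∀ g : ι → ℕ, ∑ i ∈ s, rootMultiplicity ω ((1 - X ^ N i : ℂ[X]) ^ g i) =
      ∑ i ∈ s.filter (fun i => m ∣ N i), g i := by
    intro g
    rw [Finset.sum_filter]
    apply Finset.sum_congr rfl
    intro i hi
    rw [rootMultiplicity_pow' (one_sub_X_pow_ne_zero (hN i hi)),
      rootMultiplicity_one_sub_X_pow (hN i hi) hω]
    split_ifs <;> simp
  rw [h2, h2] at h1
  have h3 : ∀ i, e i = ((e i).toNat : ℤ) - ((-e i).toNat : ℤ) := by
    intro i; omega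
  rw [Finset.sum_congr rfl (fun i _ => h3 i), Finset.sum_sub_distrib]
  rw [← Nat.cast_sum, ← Nat.cast_sum, h1, sub_self]

end Mono
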